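import Pool.Agent.Y981.L2.PolyE

/-!
High moments of the width of the self-avoiding polygons: the scaling function.
-/

set_option autoImplicit false

namespace Pool.Agent.J4H67.HM

open Finset Filter Topology
open Pool.Agent.Y981.L2 (width R R_zero R_smul R_mono R_nonneg R_le pw pw_ldp loops_finite width_le)
open H981 (IsLoop)

/-- the values -/
noncomputable def val (s x : ℝ) : ℝ := Real.log x - 2 * s * R x

/-- the scaling function -/
noncomputable def ph (s : ℝ) : ℝ := sSup (val s '' Set.Ioc 0 1)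

theorem val_le {s x : ℝ} (hs : 0 ≤ s) (hx : x ∈ Set.Ioc (0 : ℝ) 1) : val s x ≤ 0 := by
  unfold val
  have h1 := Real.log_nonpos hx.1.le hx.2
  have h2 := R_nonneg hx.1.le hx.2
  have h3 := mul_nonneg hs h2
  linarith

theorem bdd {s : ℝ} (hs : 0 ≤ s) : BddAbove (val s '' Set.Ioc 0 1) := by
  refine ⟨0, ?_⟩
  rintro _ ⟨x, hx, rfl⟩
  exact val_le hs hx

theorem le_ph {s x : ℝ} (hs : 0 ≤ s) (hx : x ∈ Set.Ioc (0 : ℝ) 1) : val s x ≤ ph s :=
  le_csSup (bdd hs) ⟨x, hx, rfl⟩

theorem ph_le {s B : ℝ} (h : ∀ x ∈ Set.Ioc (0 : ℝ) 1, val s x ≤ B) : ph s ≤ B := by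
  refine csSup_le ⟨_, 1, ⟨one_pos, le_rfl⟩, rfl⟩ ?_
  rintro _ ⟨x, hx, rfl⟩
  exact h x hx

theorem ph_anti {s s' : ℝ} (hs : 0 ≤ s) (h : s ≤ s') : ph s' ≤ ph s := by
  refine ph_le fun x hx => le_trans ?_ (le_ph hs hx)
  unfold val
  have h1 := R_nonneg hx.1.le hx.2
  nlinarith

theorem ph_log {s s' : ℝ} (hs : 0 < s) (h : s ≤ s') : ph s + Real.log s ≤ ph s' + Real.log s' := by
  have hs' : 0 < s' := hs.trans_le h
  have h0 : ph s ≤ ph s' + Real.log s' - Real.log s := by
    refine ph_le fun x hx => ?_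
    have ht1 : s / s' ≤ 1 := (div_le_one hs').2 h
    have ht0 : 0 < s / s' := by positivity
    have hx' : s / s' * x ∈ Set.Ioc (0 : ℝ) 1 :=
      ⟨mul_pos ht0 hx.1, mul_le_one₀ ht1 hx.1.le hx.2⟩
    have h1 := le_ph hs'.le hx'
    have h2 := R_smul hx.1.le hx.2 ht0.le ht1
    unfold val at h1 ⊢
    rw [Real.log_mul ht0.ne' hx.1.ne', Real.log_div hs.ne' hs'.ne'] at h1
    have h3 : s' * R (s / s' * x) ≤ s * R x := by
      calc s' * R (s / s' * x) ≤ s' * (s / s' * R x) := mul_le_mul_of_nonneg_left h2 hs'.le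
        _ = s * R x := by field_simp
    linarith
  linarith

/-- the moment of order `p` of the width -/
noncomputable def WW (p : ℝ) (n : ℕ) : ℝ :=
  (∑ᶠ f ∈ {f : ZMod (2 * n) → ℤ × ℤ | IsLoop (2 * n) f}, (width (2 * n) f : ℝ) ^ p) /
    ({f : ZMod (2 * n) → ℤ × ℤ | IsLoop (2 * n) f}.ncard : ℝ)

open Classical in
theorem WW_eq (p : ℝ) {n : ℕ} (hn : 1 ≤ n) : WW p n =
    (∑ f ∈ (loops_finite hn).toFinset, (width (2 * n) f : ℝ) ^ p) /
      ((loops_finite hn).toFinset.card : ℝ) := by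
  unfold WW
  rw [finsum_mem_eq_finite_toFinset_sum _ (loops_finite hn),
    Set.ncard_eq_toFinset_card _ (loops_finite hn)]

open Classical in
theorem pw_eq {n : ℕ} (hn : 1 ≤ n) (k : ℕ) : pw n k =
    (((loops_finite hn).toFinset.filter (fun f => k ≤ width (2 * n) f)).card : ℝ) /
      ((loops_finite hn).toFinset.card : ℝ) := by
  unfold pw
  rw [Set.ncard_eq_toFinset_card _ (loops_finite hn)]
  congr 2
  rw [← Set.ncard_coe_finset]
  congr 1
  ext f
  simp

open Classical in
/-- lower bound -/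
theorem low {p : ℝ} (hp : 0 < p) {n : ℕ} (hn : 1 ≤ n) (k : ℕ) : (k : ℝ) ^ p * pw n k ≤ WW p n := by
  rw [WW_eq p hn, pw_eq hn, ← mul_div_assoc]
  refine div_le_div_of_nonneg_right ?_ (Nat.cast_nonneg _)
  calc (k : ℝ) ^ p * (((loops_finite hn).toFinset.filter (fun f => k ≤ width (2 * n) f)).card : ℝ)
      = ∑ f ∈ (loops_finite hn).toFinset.filter (fun f => k ≤ width (2 * n) f), (k : ℝ) ^ p := by
        rw [sum_const, nsmul_eq_mul, mul_comm]
    _ ≤ ∑ f ∈ (loops_finite hn).toFinset.filter (fun f => k ≤ width (2 * n) f),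
          (width (2 * n) f : ℝ) ^ p := by
        refine sum_le_sum fun f hf => ?_
        exact Real.rpow_le_rpow (Nat.cast_nonneg _) (by exact_mod_cast (mem_filter.1 hf).2) hp.le
    _ ≤ _ := sum_le_sum_of_subset_of_nonneg (filter_subset _ _) fun f _ _ => by positivity

open Classical in
/-- upper bound -/
theorem upp {p : ℝ} (hp : 0 < p) {n : ℕ} (hn : 2 ≤ n) :
    WW p n ≤ ∑ k ∈ Ico 1 n, (4 * (k : ℝ)) ^ p * pw n k := by
  have hn1 : 1 ≤ n := by omega
  have h1 : ∀ f ∈ (loops_finite hn1).toFinset, (width (2 * n) f : ℝ) ^ p ≤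
      ∑ k ∈ Ico 1 n, (4 * (k : ℝ)) ^ p * (if k ≤ width (2 * n) f then 1 else 0) := by
    intro f hf
    have hf' : IsLoop (2 * n) f := by simpa using hf
    have hw := width_le hn1 hf'
    have hnn : ∀ k ∈ Ico 1 n, 0 ≤ (4 * (k : ℝ)) ^ p * (if k ≤ width (2 * n) f then 1 else 0) := by
      intro k _
      split_ifs <;> positivity
    rcases Nat.eq_zero_or_pos (width (2 * n) f) with h0 | h0
    · rw [h0, Nat.cast_zero, Real.zero_rpow hp.ne']
      exact sum_nonneg fun k hk => by
        rw [← h0]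
        exact hnn k hk
    · obtain ⟨k, hk, hk1, hk2⟩ : ∃ k ∈ Ico 1 n, k ≤ width (2 * n) f ∧ width (2 * n) f ≤ 4 * k := by
        rcases Nat.lt_or_ge (width (2 * n) f) n with h2 | h2
        · exact ⟨_, mem_Ico.2 ⟨h0, h2⟩, le_rfl, by omega⟩
        · exact ⟨n - 1, mem_Ico.2 ⟨by omega, by omega⟩, by omega, by omega⟩
      refine le_trans ?_ (single_le_sum hnn hk)
      rw [if_pos hk1, mul_one]
      exact Real.rpow_le_rpow (Nat.cast_nonneg _) (by exact_mod_cast hk2) hp.le
  rw [WW_eq p hn1]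
  calc (∑ f ∈ (loops_finite hn1).toFinset, (width (2 * n) f : ℝ) ^ p) /
      ((loops_finite hn1).toFinset.card : ℝ)
      ≤ (∑ f ∈ (loops_finite hn1).toFinset, ∑ k ∈ Ico 1 n,
          (4 * (k : ℝ)) ^ p * (if k ≤ width (2 * n) f then 1 else 0)) /
        ((loops_finite hn1).toFinset.card : ℝ) :=
        div_le_div_of_nonneg_right (sum_le_sum h1) (Nat.cast_nonneg _)
    _ = ∑ k ∈ Ico 1 n, (4 * (k : ℝ)) ^ p * pw n k := by
        rw [sum_comm, sum_div]
        refine sum_congr rfl fun k _ => ?_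
        rw [pw_eq hn1, ← mul_sum, sum_boole, mul_div_assoc]

/-- **The scaling law.** -/
theorem scaling : ∃ C : ℝ, ∀ n : ℕ, 2 ≤ n → ∀ p : ℝ, Real.log n ^ 2 ≤ p →
    0 < WW p n ∧ |Real.log (WW p n) / p - Real.log n - ph (n / p)| ≤ C := by
  obtain ⟨K, hK, h⟩ := pw_ldp
  obtain ⟨R1, hR1⟩ : ∃ R1 : ℝ, R1 = R 1 := ⟨_, rfl⟩
  have hR1' : 0 ≤ R1 := by rw [hR1]; exact R_nonneg zero_le_one le_rfl
  refine ⟨K + Real.log 2 + 4 + 8 * R1 + Real.log 4, fun n hn p hp => ?_⟩
  have hn' : (2 : ℝ) ≤ n := by exact_mod_cast hn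
  have hn0 : (0 : ℝ) < n := by linarith
  have hl2 : 1 / 2 ≤ Real.log 2 := by have := Real.log_two_gt_d9; linarith
  have hln : Real.log 2 ≤ Real.log n := Real.log_le_log (by norm_num) hn'
  have hln0 : 0 < Real.log n := by linarith
  have hp0 : 0 < p := lt_of_lt_of_le (by positivity) hp
  have hp4 : 1 / 4 ≤ p := by nlinarith
  have hs : 0 ≤ (n : ℝ) / p := by positivity
  have hKp : K * Real.log n ^ 2 / p ≤ K := by
    rw [div_le_iff₀ hp0]
    exact mul_le_mul_of_nonneg_left hp hK
  have hlp : Real.log n / p ≤ 4 := by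
    rw [div_le_iff₀ hp0]
    nlinarith
  have hl4 : 0 ≤ Real.log 4 := Real.log_nonneg (by norm_num)
  -- lower bound for `WW`
  have hlow : ∀ k : ℕ, 1 ≤ k → k < n →
      Real.log k - 2 * (n / p) * R ((k : ℝ) / n) - K ≤ Real.log (WW p n) / p ∧ 0 < WW p n := by
    intro k hk hkn
    have hk0 : (0 : ℝ) < k := by exact_mod_cast hk
    have h1 := (h n hn k hk hkn).1
    have h2 := low hp0 (show 1 ≤ n by omega) k
    have h3 : (k : ℝ) ^ p * Real.exp (-(2 * (n * R ((k : ℝ) / n)) + K * Real.log n ^ 2)) ≤ WW p n :=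
      (mul_le_mul_of_nonneg_left h1 (by positivity)).trans h2
    have hpos : 0 < (k : ℝ) ^ p * Real.exp (-(2 * (n * R ((k : ℝ) / n)) + K * Real.log n ^ 2)) := by
      positivity
    have h4 := Real.log_le_log hpos h3
    rw [Real.log_mul (by positivity) (Real.exp_pos _).ne', Real.log_exp, Real.log_rpow hk0] at h4
    refine ⟨?_, hpos.trans_le h3⟩
    rw [le_div_iff₀ hp0]
    have h5 : (Real.log k - 2 * (n / p) * R ((k : ℝ) / n) - K) * p =
        p * Real.log k - 2 * (n * R ((k : ℝ) / n)) - K * p := by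
      field_simp
    rw [h5]
    have h6 : K * Real.log n ^ 2 ≤ K * p := mul_le_mul_of_nonneg_left hp hK
    linarith
  have hW := (hlow 1 le_rfl (by omega)).2
  refine ⟨hW, ?_⟩
  -- `ph` is at most
  have hph : ph (n / p) ≤ Real.log (WW p n) / p - Real.log n + (K + Real.log 2 + 8 * R1) := by
    refine ph_le fun x hx => ?_
    unfold val
    obtain ⟨hx0, hx1⟩ := hx
    have hRx := R_nonneg hx0.le hx1
    rcases lt_or_ge (x * n) 1 with hxn | hxn
    · -- small `x`
      have h1 := (hlow 1 le_rfl (by omega)).1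
      rw [Nat.cast_one, Real.log_one] at h1
      have h2 : Real.log x ≤ -Real.log n := by
        rw [← Real.log_inv]
        refine Real.log_le_log hx0 ?_
        rw [← one_div, le_div_iff₀ hn0]
        exact hxn.le
      have h3 : R (1 / (n : ℝ)) ≤ 1 / n * R1 := by
        have := R_smul (v := 1) (t := 1 / (n : ℝ)) zero_le_one le_rfl (by positivity)
          (by rw [div_le_one hn0]; linarith)
        rw [mul_one] at this
        rw [hR1]
        exact this
      have h4 : 2 * (n / p) * R (1 / (n : ℝ)) ≤ 8 * R1 := by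
        calc 2 * (n / p) * R (1 / (n : ℝ)) ≤ 2 * (n / p) * (1 / n * R1) :=
              mul_le_mul_of_nonneg_left h3 (by positivity)
          _ = 2 * R1 / p := by field_simp
          _ ≤ 8 * R1 := by
              rw [div_le_iff₀ hp0]
              nlinarith
      have h5 : 0 ≤ 2 * (n / p) * R x := by positivity
      linarith
    · -- the lattice point below `x`
      obtain ⟨k, hk1, hkn, hkx, hxk⟩ : ∃ k : ℕ, 1 ≤ k ∧ k < n ∧ (k : ℝ) ≤ x * n ∧ x * n / 2 ≤ k := by
        have hf1 : 1 ≤ ⌊x * n⌋₊ := Nat.le_floor (by exact_mod_cast hxn)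
        have hf2 := Nat.floor_le (show 0 ≤ x * n by positivity)
        have hf3 := Nat.lt_floor_add_one (x * n)
        have hf1' : (1 : ℝ) ≤ ⌊x * n⌋₊ := by exact_mod_cast hf1
        rcases Nat.lt_or_ge ⌊x * n⌋₊ n with h1 | h1
        · exact ⟨_, hf1, h1, hf2, by linarith⟩
        · refine ⟨n - 1, by omega, by omega, ?_, ?_⟩
          · have h2 : ((n - 1 : ℕ) : ℝ) ≤ (⌊x * n⌋₊ : ℝ) := by exact_mod_cast (by omega : n - 1 ≤ ⌊x * n⌋₊)
            linarith
          · have h2 : ((n - 1 : ℕ) : ℝ) = n - 1 := by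
              rw [Nat.cast_sub (by omega), Nat.cast_one]
            rw [h2]
            nlinarith
      have hk0 : (0 : ℝ) < k := by exact_mod_cast hk1
      have h1 := (hlow k hk1 hkn).1
      have h2 : (k : ℝ) / n ≤ x := by rw [div_le_iff₀ hn0]; exact hkx
      have h3 := R_mono (by positivity) h2 hx1
      have h4 : 2 * (n / p) * R ((k : ℝ) / n) ≤ 2 * (n / p) * R x :=
        mul_le_mul_of_nonneg_left h3 (by positivity)
      have h5 : Real.log x + Real.log n - Real.log 2 ≤ Real.log k := by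
        rw [← Real.log_mul hx0.ne' hn0.ne', ← Real.log_div (by positivity) (by norm_num)]
        exact Real.log_le_log (by positivity) hxk
      have : 0 ≤ 8 * R1 := by positivity
      linarith
  -- upper bound for `WW`
  have hupp : Real.log (WW p n) / p ≤ 4 + Real.log 4 + Real.log n + ph (n / p) + K := by
    have h1 : ∀ k ∈ Ico 1 n, (4 * (k : ℝ)) ^ p * pw n k ≤
        Real.exp (p * (Real.log 4 + Real.log n + ph (n / p)) + K * Real.log n ^ 2) := by
      intro k hk
      obtain ⟨hk1, hkn⟩ := mem_Ico.1 hk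
      have hk0 : (0 : ℝ) < k := by exact_mod_cast hk1
      have h2 := (h n hn k hk1 hkn).2
      have h3 := le_ph (x := (k : ℝ) / n) hs ⟨by positivity, by
        rw [div_le_one hn0]
        exact_mod_cast hkn.le⟩
      unfold val at h3
      rw [Real.log_div hk0.ne' hn0.ne'] at h3
      have h4 : (4 * (k : ℝ)) ^ p = Real.exp (p * (Real.log 4 + Real.log k)) := by
        rw [Real.rpow_def_of_pos (by positivity), Real.log_mul (by norm_num) hk0.ne', mul_comm]
      calc (4 * (k : ℝ)) ^ p * pw n k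
          ≤ (4 * (k : ℝ)) ^ p * Real.exp (-(2 * (n * R ((k : ℝ) / n))) + K * Real.log n ^ 2) :=
            mul_le_mul_of_nonneg_left h2 (by positivity)
        _ = Real.exp (p * (Real.log 4 + Real.log k) +
              (-(2 * (n * R ((k : ℝ) / n))) + K * Real.log n ^ 2)) := by
            rw [h4, ← Real.exp_add]
        _ ≤ _ := by
            refine Real.exp_le_exp.2 ?_
            have h5 := mul_le_mul_of_nonneg_left h3 hp0.le
            have h6 : p * (Real.log k - Real.log n - 2 * (n / p) * R ((k : ℝ) / n)) =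
                p * Real.log k - p * Real.log n - 2 * (n * R ((k : ℝ) / n)) := by
              field_simp
            rw [h6] at h5
            linarith
    have h2 := (upp hp0 hn).trans (sum_le_sum h1)
    rw [sum_const, nsmul_eq_mul, Nat.card_Ico] at h2
    have h3 : WW p n ≤ n * Real.exp (p * (Real.log 4 + Real.log n + ph (n / p)) +
        K * Real.log n ^ 2) := by
      refine h2.trans (mul_le_mul_of_nonneg_right ?_ (Real.exp_pos _).le)
      exact_mod_cast (by omega : n - 1 ≤ n)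
    have h4 := Real.log_le_log hW h3
    rw [Real.log_mul hn0.ne' (Real.exp_pos _).ne', Real.log_exp] at h4
    rw [div_le_iff₀ hp0]
    have h5 : Real.log n ≤ 4 * p := by
      rw [div_le_iff₀ hp0] at hlp
      exact hlp
    have h6 : K * Real.log n ^ 2 ≤ K * p := mul_le_mul_of_nonneg_left hp hK
    linarith
  have hl20 : 0 ≤ Real.log 2 := by linarith
  have : 0 ≤ 8 * R1 := by positivity
  rw [abs_le]
  constructor <;> linarith

end Pool.Agent.J4H67.HM
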