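import Pool.Agent.J4H67.HM.A

/-!
High moments of the width of the self-avoiding polygons: exponents.
-/

set_option autoImplicit false

namespace Pool.Agent.J4H67.HM

open Finset Filter Topology
open Pool.Agent.Y981.L2 (width loops_finite)
open H981 (IsLoop)

theorem tendsto_log_nat : Tendsto (fun n : ℕ => Real.log n) atTop atTop :=
  Real.tendsto_log_atTop.comp (tendsto_natCast_atTop_atTop (R := ℝ))

/-- from the moments to the scaling function -/
theorem conv {p : ℕ → ℝ} (hp : ∀ᶠ n : ℕ in atTop, Real.log n ^ 2 ≤ p n) (L : ℝ) :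
    Tendsto (fun n : ℕ => Real.log (WW (p n) n) / (p n * Real.log n)) atTop (𝓝 L) ↔
      Tendsto (fun n : ℕ => ph (n / p n) / Real.log n) atTop (𝓝 (L - 1)) := by
  obtain ⟨C, hC⟩ := scaling
  have hD : Tendsto (fun n : ℕ => Real.log (WW (p n) n) / (p n * Real.log n) - 1 -
      ph (n / p n) / Real.log n) atTop (𝓝 0) := by
    have h0 : Tendsto (fun n : ℕ => C / Real.log n) atTop (𝓝 0) :=
      tendsto_const_nhds.div_atTop tendsto_log_nat
    refine squeeze_zero_norm' ?_ h0
    filter_upwards [hp, eventually_ge_atTop 2] with n h1 hn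
    have hl : 0 < Real.log n := Real.log_pos (by exact_mod_cast (by omega : 1 < n))
    have hp0 : 0 < p n := lt_of_lt_of_le (by positivity) h1
    have h2 := (hC n hn (p n) h1).2
    have e : Real.log (WW (p n) n) / (p n * Real.log n) - 1 - ph (n / p n) / Real.log n =
        (Real.log (WW (p n) n) / p n - Real.log n - ph (n / p n)) / Real.log n := by
      field_simp
    rw [e, Real.norm_eq_abs, abs_div, abs_of_pos hl]
    exact div_le_div_of_nonneg_right h2 hl.le
  constructor
  · intro h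
    have h1 := (h.sub hD).sub_const 1
    rw [sub_zero] at h1
    refine h1.congr fun n => ?_
    ring
  · intro h
    have h1 := (h.add hD).add_const 1
    rw [add_zero, sub_add_cancel] at h1
    refine h1.congr fun n => ?_
    ring

/-- the scaling function at all real arguments -/
theorem lim_real {a θ : ℝ} (ha1 : a < 1)
    (h : Tendsto (fun n : ℕ => ph ((n : ℝ) ^ (1 - a)) / Real.log n) atTop
      (𝓝 (-((1 - a) * (1 - θ))))) :
    Tendsto (fun t : ℝ => ph t / Real.log t) atTop (𝓝 (-(1 - θ))) := by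
  have hc : 0 < 1 - a := by linarith
  obtain ⟨N, hN⟩ : ∃ N : ℝ → ℕ, ∀ t, N t = ⌊t ^ (1 / (1 - a))⌋₊ := ⟨_, fun _ => rfl⟩
  have hNt : Tendsto N atTop atTop := by
    have h1 : Tendsto (fun t : ℝ => ⌊t ^ (1 / (1 - a))⌋₊) atTop atTop :=
      tendsto_nat_floor_atTop.comp (tendsto_rpow_atTop (by positivity))
    exact h1.congr fun t => (hN t).symm
  have hcmp : ∀ t : ℝ, 1 ≤ t → 1 ≤ N t ∧ (N t : ℝ) ^ (1 - a) ≤ t ∧ t ≤ 2 ^ (1 - a) * (N t : ℝ) ^ (1 - a) := by
    intro t ht
    have ht0 : (0 : ℝ) < t := by linarith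
    have h1 : 1 ≤ t ^ (1 / (1 - a)) := Real.one_le_rpow ht (by positivity)
    have h2 : 1 ≤ N t := by rw [hN]; exact Nat.le_floor (by exact_mod_cast h1)
    have h3 : (N t : ℝ) ≤ t ^ (1 / (1 - a)) := by rw [hN]; exact Nat.floor_le (by positivity)
    have h4 : t ^ (1 / (1 - a)) < N t + 1 := by rw [hN]; exact Nat.lt_floor_add_one _
    have h5 : (1 : ℝ) ≤ N t := by exact_mod_cast h2
    have e : (t ^ (1 / (1 - a))) ^ (1 - a) = t := by
      rw [← Real.rpow_mul ht0.le, one_div_mul_cancel hc.ne', Real.rpow_one]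
    refine ⟨h2, ?_, ?_⟩
    · calc (N t : ℝ) ^ (1 - a) ≤ (t ^ (1 / (1 - a))) ^ (1 - a) :=
            Real.rpow_le_rpow (by positivity) h3 hc.le
        _ = t := e
    · calc t = (t ^ (1 / (1 - a))) ^ (1 - a) := e.symm
        _ ≤ (2 * (N t : ℝ)) ^ (1 - a) := Real.rpow_le_rpow (by positivity) (by linarith) hc.le
        _ = _ := Real.mul_rpow (by norm_num) (by positivity)
  obtain ⟨B, hB⟩ : ∃ B : ℝ, B = (1 - a) * Real.log 2 := ⟨_, rfl⟩
  have hlogcmp : ∀ t : ℝ, 1 ≤ t → (1 - a) * Real.log (N t) ≤ Real.log t ∧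
      Real.log t ≤ B + (1 - a) * Real.log (N t) := by
    intro t ht
    obtain ⟨h1, h2, h3⟩ := hcmp t ht
    have h5 : (0 : ℝ) < N t := by exact_mod_cast h1
    have ht0 : (0 : ℝ) < t := by linarith
    constructor
    · rw [← Real.log_rpow h5]
      exact Real.log_le_log (by positivity) h2
    · rw [hB, ← Real.log_rpow h5, ← Real.log_rpow (by norm_num : (0 : ℝ) < 2),
        ← Real.log_mul (by positivity) (by positivity)]
      exact Real.log_le_log ht0 h3
  have hlt : Tendsto (fun t : ℝ => B / Real.log t) atTop (𝓝 0) :=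
    tendsto_const_nhds.div_atTop Real.tendsto_log_atTop
  -- ratio of the logarithms
  have hr : Tendsto (fun t : ℝ => Real.log (N t) / Real.log t) atTop (𝓝 (1 / (1 - a))) := by
    have h0 : Tendsto (fun t : ℝ => (Real.log t - (1 - a) * Real.log (N t)) / Real.log t) atTop
        (𝓝 0) := by
      refine squeeze_zero' ?_ ?_ hlt
      · filter_upwards [eventually_ge_atTop 1] with t ht
        exact div_nonneg (by linarith [(hlogcmp t ht).1]) (Real.log_nonneg ht)
      · filter_upwards [eventually_ge_atTop 1] with t ht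
        exact div_le_div_of_nonneg_right (by linarith [(hlogcmp t ht).2]) (Real.log_nonneg ht)
    have h1 := ((tendsto_const_nhds (x := (1 : ℝ))).sub h0).div_const (1 - a)
    rw [sub_zero] at h1
    refine h1.congr' ?_
    filter_upwards [eventually_gt_atTop 1] with t ht
    have := Real.log_pos ht
    field_simp
    ring
  have h1 := (h.comp hNt).mul hr
  have e1 : -((1 - a) * (1 - θ)) * (1 / (1 - a)) = -(1 - θ) := by
    field_simp
  rw [e1] at h1
  have h2 : Tendsto (fun t : ℝ => (ph ((N t : ℝ) ^ (1 - a)) - ph t) / Real.log t) atTop (𝓝 0) := by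
    refine squeeze_zero' ?_ ?_ hlt
    · filter_upwards [eventually_ge_atTop 1] with t ht
      obtain ⟨g1, g2, g3⟩ := hcmp t ht
      exact div_nonneg (by linarith [ph_anti (by positivity) g2]) (Real.log_nonneg ht)
    · filter_upwards [eventually_ge_atTop 1] with t ht
      obtain ⟨g1, g2, g3⟩ := hcmp t ht
      have g5 : (0 : ℝ) < N t := by exact_mod_cast g1
      have g4 := ph_log (s := (N t : ℝ) ^ (1 - a)) (by positivity) g2
      rw [Real.log_rpow g5] at g4
      exact div_le_div_of_nonneg_right (by linarith [(hlogcmp t ht).2]) (Real.log_nonneg ht)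
  have h3 := h1.sub h2
  rw [sub_zero] at h3
  refine h3.congr' ?_
  filter_upwards [eventually_ge_atTop 1, hNt.eventually_ge_atTop 2] with t ht hNt2
  have g5 : 0 < Real.log (N t) := Real.log_pos (by exact_mod_cast (by omega : 1 < N t))
  simp only [Function.comp]
  have g6 : 0 < Real.log t := by
    have := (hlogcmp t ht).1
    have := mul_pos hc g5
    linarith
  field_simp
  ring

/-- the limit along a sequence -/
theorem lim_seq {θ c : ℝ} (h : Tendsto (fun t : ℝ => ph t / Real.log t) atTop (𝓝 (-(1 - θ))))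
    {s : ℕ → ℝ} (hs : Tendsto s atTop atTop)
    (hc : Tendsto (fun n : ℕ => Real.log (s n) / Real.log n) atTop (𝓝 c)) :
    Tendsto (fun n : ℕ => ph (s n) / Real.log n) atTop (𝓝 (-(c * (1 - θ)))) := by
  have h1 := (h.comp hs).mul hc
  have e : -(1 - θ) * c = -(c * (1 - θ)) := by ring
  rw [e] at h1
  refine h1.congr' ?_
  filter_upwards [hs.eventually_gt_atTop 1] with n hn
  have := Real.log_pos hn
  simp only [Function.comp]
  field_simp

/-- the exponent of the moments of order `n ^ a` -/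
def Exp (θ a : ℝ) : Prop :=
  Tendsto (fun n : ℕ => Real.log (WW ((n : ℝ) ^ a) n) / ((n : ℝ) ^ a * Real.log n)) atTop
    (𝓝 (a + (1 - a) * θ))

theorem log_sq_le {a : ℝ} (ha : 0 < a) : ∀ᶠ n : ℕ in atTop, Real.log n ^ 2 ≤ (n : ℝ) ^ a := by
  have h := ((isLittleO_log_rpow_atTop (show 0 < a / 2 by linarith)).comp_tendsto
    (tendsto_natCast_atTop_atTop (R := ℝ))).def one_pos
  filter_upwards [h, eventually_ge_atTop 1] with n hn hn1
  have hn0 : (0 : ℝ) < n := by exact_mod_cast hn1
  simp only [Function.comp, one_mul] at hn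
  rw [Real.norm_eq_abs, Real.norm_of_nonneg (by positivity : (0 : ℝ) ≤ (n : ℝ) ^ (a / 2))] at hn
  calc Real.log n ^ 2 = |Real.log n| ^ 2 := (sq_abs _).symm
    _ ≤ ((n : ℝ) ^ (a / 2)) ^ 2 := pow_le_pow_left₀ (abs_nonneg _) hn 2
    _ = (n : ℝ) ^ a := by
      rw [← Real.rpow_natCast, ← Real.rpow_mul hn0.le]
      congr 1
      push_cast
      ring

theorem exp_iff {θ a : ℝ} (ha : 0 < a) : Exp θ a ↔
    Tendsto (fun n : ℕ => ph ((n : ℝ) ^ (1 - a)) / Real.log n) atTop
      (𝓝 (-((1 - a) * (1 - θ)))) := by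
  unfold Exp
  rw [conv (log_sq_le ha)]
  have e : a + (1 - a) * θ - 1 = -((1 - a) * (1 - θ)) := by ring
  rw [e]
  refine tendsto_congr' ?_
  filter_upwards [eventually_ge_atTop 1] with n hn
  have hn0 : (0 : ℝ) < n := by exact_mod_cast hn
  rw [Real.rpow_sub hn0, Real.rpow_one]

theorem exp_all {θ a b : ℝ} (ha : 0 < a) (ha1 : a < 1) (hb : 0 < b) (hb1 : b < 1)
    (h : Exp θ a) : Exp θ b := by
  rw [exp_iff hb]
  have h1 := lim_real ha1 ((exp_iff ha).1 h)
  refine lim_seq h1 ((tendsto_rpow_atTop (by linarith)).comp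
    (tendsto_natCast_atTop_atTop (R := ℝ))) ?_
  refine tendsto_const_nhds.congr' ?_
  filter_upwards [eventually_ge_atTop 2] with n hn
  have hn0 : (0 : ℝ) < n := by exact_mod_cast (by omega : 0 < n)
  have hl : 0 < Real.log n := Real.log_pos (by exact_mod_cast (by omega : 1 < n))
  rw [Real.log_rpow hn0]
  field_simp

theorem exp_log {θ a : ℝ} (ha : 0 < a) (ha1 : a < 1) (h : Exp θ a) :
    Tendsto (fun n : ℕ => Real.log (WW (Real.log n ^ 2) n) / (Real.log n ^ 2 * Real.log n)) atTop
      (𝓝 θ) := by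
  rw [conv (p := fun n : ℕ => Real.log n ^ 2) (Eventually.of_forall fun n => le_rfl)]
  have h1 := lim_real ha1 ((exp_iff ha).1 h)
  have e : θ - 1 = -(1 * (1 - θ)) := by ring
  rw [e]
  have hll : Tendsto (fun n : ℕ => Real.log (Real.log n) / Real.log n) atTop (𝓝 0) := by
    have h2 : Tendsto (fun x : ℝ => Real.log x / x) atTop (𝓝 0) :=
      Real.isLittleO_log_id_atTop.tendsto_div_nhds_zero
    exact h2.comp tendsto_log_nat
  have hlog : ∀ᶠ n : ℕ in atTop, Real.log ((n : ℝ) / Real.log n ^ 2) =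
      Real.log n - 2 * Real.log (Real.log n) := by
    filter_upwards [eventually_ge_atTop 2] with n hn
    have hn0 : (0 : ℝ) < n := by exact_mod_cast (by omega : 0 < n)
    have hl : 0 < Real.log n := Real.log_pos (by exact_mod_cast (by omega : 1 < n))
    rw [Real.log_div hn0.ne' (by positivity), Real.log_pow]
    norm_num
  refine lim_seq h1 ?_ ?_
  · -- `n / log² n → ∞`
    have h3 : ∀ᶠ n : ℕ in atTop, (n : ℝ) ^ (1 / 2 : ℝ) ≤ n / Real.log n ^ 2 := by
      filter_upwards [log_sq_le (show (0 : ℝ) < 1 / 2 by norm_num), eventually_ge_atTop 2]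
        with n h4 hn
      have hn0 : (0 : ℝ) < n := by exact_mod_cast (by omega : 0 < n)
      have hl : 0 < Real.log n := Real.log_pos (by exact_mod_cast (by omega : 1 < n))
      rw [le_div_iff₀ (by positivity)]
      calc (n : ℝ) ^ (1 / 2 : ℝ) * Real.log n ^ 2 ≤ (n : ℝ) ^ (1 / 2 : ℝ) * (n : ℝ) ^ (1 / 2 : ℝ) :=
            mul_le_mul_of_nonneg_left h4 (by positivity)
        _ = n := by
          rw [← Real.rpow_add hn0]
          norm_num
    exact tendsto_atTop_mono' _ h3 ((tendsto_rpow_atTop (by norm_num)).comp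
      (tendsto_natCast_atTop_atTop (R := ℝ)))
  · have h4 := (tendsto_const_nhds (x := (1 : ℝ))).sub (hll.const_mul 2)
    rw [mul_zero, sub_zero] at h4
    refine h4.congr' ?_
    filter_upwards [hlog, eventually_ge_atTop 2] with n h5 hn
    have hl : 0 < Real.log n := Real.log_pos (by exact_mod_cast (by omega : 1 < n))
    rw [h5]
    field_simp

open Classical in
theorem jensen {q : ℝ} (hq : 1 ≤ q) {n : ℕ} (hn : 1 ≤ n)
    (hne : 0 < (loops_finite hn).toFinset.card) : WW 1 n ≤ (WW q n) ^ (1 / q) := by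
  rw [WW_eq 1 hn, WW_eq q hn]
  have hc : (0 : ℝ) < ((loops_finite hn).toFinset.card : ℝ) := by exact_mod_cast hne
  have h := Real.arith_mean_le_rpow_mean (loops_finite hn).toFinset
    (fun _ => 1 / ((loops_finite hn).toFinset.card : ℝ)) (fun f => (width (2 * n) f : ℝ))
    (fun _ _ => by positivity) (by rw [sum_const, nsmul_eq_mul]; field_simp)
    (fun _ _ => by positivity) hq
  rw [← mul_sum, ← mul_sum] at h
  simp only [Real.rpow_one]
  rw [div_eq_mul_one_div, mul_comm, div_eq_mul_one_div (∑ f ∈ (loops_finite hn).toFinset,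
    (width (2 * n) f : ℝ) ^ q), mul_comm (∑ f ∈ (loops_finite hn).toFinset,
    (width (2 * n) f : ℝ) ^ q)]
  exact h

theorem mean_le {θ a : ℝ} (ha : 0 < a) (ha1 : a < 1) (h : Exp θ a) {ε : ℝ} (hε : 0 < ε) :
    ∀ᶠ n : ℕ in atTop, WW 1 n ≤ (n : ℝ) ^ (θ + ε) := by
  have h1 := exp_log ha ha1 h
  obtain ⟨C, hC⟩ := scaling
  filter_upwards [h1.eventually (gt_mem_nhds (show θ < θ + ε by linarith)),
    tendsto_log_nat.eventually_ge_atTop 1, eventually_ge_atTop 2] with n h2 hl hn
  have hn0 : (0 : ℝ) < n := by exact_mod_cast (by omega : 0 < n)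
  have hn1 : 1 ≤ n := by omega
  have hq : 1 ≤ Real.log n ^ 2 := one_le_pow₀ hl
  have hpos := (hC n hn _ (le_refl (Real.log n ^ 2))).1
  have hne : 0 < (loops_finite hn1).toFinset.card := by
    by_contra hcon
    have h0 : (loops_finite hn1).toFinset.card = 0 := by omega
    rw [WW_eq _ hn1, h0, Nat.cast_zero, div_zero] at hpos
    exact lt_irrefl _ hpos
  refine (jensen hq hn1 hne).trans ?_
  have h3 : Real.log (WW (Real.log n ^ 2) n) ≤ (θ + ε) * (Real.log n ^ 2 * Real.log n) :=
    ((div_lt_iff₀ (by positivity)).1 h2).le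
  rw [← Real.exp_log hpos, ← Real.exp_mul, Real.rpow_def_of_pos hn0]
  refine Real.exp_le_exp.2 ?_
  rw [mul_one_div, div_le_iff₀ (by positivity)]
  linarith

end Pool.Agent.J4H67.HM
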