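import Pool.Agent.J4H67.HM.B

/-!
High moments of the width of the self-avoiding polygons: the scaling function and the correlation
length of the self-avoiding walk.
-/

set_option autoImplicit false

namespace Pool.Agent.J4H67.HM

open Filter Topology
open Pool.Agent.Y981.L2 (mass mass_pos exists_speed psi_le_of_lt young R R_nonneg R_smul R_zero)

theorem R_ge {e x : ℝ} (he : 0 < e) (hx0 : 0 ≤ x) (hx1 : x ≤ 1) : mass e * x - e ≤ R x := by
  have hm := mass_pos he
  by_contra hcon
  push Not at hcon
  have hx : 0 < x := by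
    rcases hx0.eq_or_lt with h | h
    · rw [← h, R_zero] at hcon
      linarith
    · exact h
  obtain ⟨h, h1, h2⟩ := exists_between ((div_lt_iff₀ hx).2 (show R x + e < mass e * x by linarith))
  have h0 : 0 ≤ h := le_trans (div_nonneg (add_nonneg (R_nonneg hx0 hx1) he.le) hx0) h1.le
  have h3 := psi_le_of_lt he.le h0 h2
  have h4 := young hx0 hx1 h
  rw [div_lt_iff₀ hx] at h1
  linarith

/-- the scaling function is given by the mass -/
theorem ph_mass {s : ℝ} (hs : 0 < s) : |ph s + Real.log (s * mass (1 / s))| ≤ 3 := by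
  obtain ⟨m, hm⟩ : ∃ m, m = mass (1 / s) := ⟨_, rfl⟩
  have he : 0 < 1 / s := by positivity
  have hm0 : 0 < m := by rw [hm]; exact mass_pos he
  rw [← hm]
  have hsm : 0 < s * m := mul_pos hs hm0
  have hup : ph s ≤ -Real.log (s * m) + 1 := by
    refine ph_le fun x hx => ?_
    unfold val
    have h1 := R_ge he hx.1.le hx.2
    rw [← hm] at h1
    have h2 := mul_le_mul_of_nonneg_left h1 hs.le
    have h3 : s * (m * x - 1 / s) = s * m * x - 1 := by field_simp
    rw [h3] at h2
    have hy : 0 < s * m * x := mul_pos hsm hx.1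
    have h4 := Real.log_le_sub_one_of_pos hy
    rw [Real.log_mul hsm.ne' hx.1.ne'] at h4
    nlinarith
  have hlow : -Real.log (s * m) - Real.log 2 - 2 ≤ ph s := by
    obtain ⟨u, hu0, hu1, hu⟩ := exists_speed he hm0
    rw [← hm] at hu
    have hRu := R_nonneg hu0.le hu1
    obtain ⟨x, hx⟩ : ∃ x, x = 1 / s / (2 * m) := ⟨_, rfl⟩
    have hx0 : 0 < x := by rw [hx]; positivity
    have hxu : x ≤ u := by
      rw [hx, div_le_iff₀ (by positivity)]
      linarith
    have h1 := R_smul (v := u) (t := x / u) hu0.le hu1 (by positivity)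
      (by rw [div_le_one hu0]; exact hxu)
    rw [div_mul_cancel₀ _ hu0.ne'] at h1
    have h2 : x / u * R u ≤ x / u * (2 * m * u) :=
      mul_le_mul_of_nonneg_left (by linarith) (by positivity)
    have h3 : x / u * (2 * m * u) = 1 / s := by
      rw [hx]
      field_simp
    have h4 : s * R x ≤ 1 := by
      have h5 := mul_le_mul_of_nonneg_left (h1.trans (h2.trans_eq h3)) hs.le
      have h6 : s * (1 / s) = 1 := by field_simp
      rwa [h6] at h5
    have h5 := le_ph (s := s) (x := x) hs.le ⟨hx0, hxu.trans hu1⟩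
    unfold val at h5
    have h6 : Real.log x = -Real.log (s * m) - Real.log 2 := by
      have : x = (s * m)⁻¹ * 2⁻¹ := by
        rw [hx]
        field_simp
      rw [this, Real.log_mul (by positivity) (by norm_num), Real.log_inv, Real.log_inv]
      ring
    linarith
  have hl2 : Real.log 2 ≤ 1 := by have := Real.log_two_lt_d9; linarith
  rw [abs_le]
  constructor <;> linarith

/-- **The high moments are given by the correlation length.** -/
theorem norm_mass : ∃ C : ℝ, ∀ n : ℕ, 2 ≤ n → ∀ p : ℝ, Real.log n ^ 2 ≤ p →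
    0 < WW p n ∧ |Real.log (WW p n) / p - Real.log (p * (1 / mass (p / n)))| ≤ C := by
  obtain ⟨C, hC⟩ := scaling
  refine ⟨C + 3, fun n hn p hp => ?_⟩
  obtain ⟨h0, h1⟩ := hC n hn p hp
  have hn0 : (0 : ℝ) < n := by exact_mod_cast (by omega : 0 < n)
  have hl : 0 < Real.log n := Real.log_pos (by exact_mod_cast (by omega : 1 < n))
  have hp0 : 0 < p := lt_of_lt_of_le (by positivity) hp
  have h2 := ph_mass (s := n / p) (by positivity)
  rw [one_div_div] at h2
  have hm : 0 < mass (p / n) := mass_pos (by positivity)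
  have e : Real.log (p * (1 / mass (p / n))) = Real.log n - Real.log ((n : ℝ) / p * mass (p / n)) := by
    rw [← Real.log_div hn0.ne' (by positivity)]
    congr 1
    field_simp
  refine ⟨h0, ?_⟩
  rw [e]
  rw [abs_le] at h1 h2 ⊢
  constructor <;> linarith [h1.1, h1.2, h2.1, h2.2]

/-- the exponent of the correlation length -/
def XiExp (θ : ℝ) : Prop :=
  Tendsto (fun e : ℝ => Real.log (1 / mass e) / Real.log e) (𝓝[>] 0) (𝓝 (-θ))

theorem diff_zero : Tendsto (fun t : ℝ => (ph t + Real.log (t * mass (1 / t))) / Real.log t) atTop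
    (𝓝 0) := by
  have h0 : Tendsto (fun t : ℝ => 3 / Real.log t) atTop (𝓝 0) :=
    tendsto_const_nhds.div_atTop Real.tendsto_log_atTop
  refine squeeze_zero_norm' ?_ h0
  filter_upwards [eventually_gt_atTop 1] with t ht
  have hl := Real.log_pos ht
  rw [Real.norm_eq_abs, abs_div, abs_of_pos hl]
  exact div_le_div_of_nonneg_right (ph_mass (by linarith)) hl.le

theorem xi_iff {θ : ℝ} : XiExp θ ↔
    Tendsto (fun t : ℝ => ph t / Real.log t) atTop (𝓝 (-(1 - θ))) := by
  have key : ∀ᶠ t : ℝ in atTop, Real.log (1 / mass t⁻¹) / Real.log t⁻¹ =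
      -(1 + ph t / Real.log t - (ph t + Real.log (t * mass (1 / t))) / Real.log t) := by
    filter_upwards [eventually_gt_atTop 1] with t ht
    have hl := Real.log_pos ht
    have ht0 : 0 < t := by linarith
    have hm : 0 < mass (1 / t) := mass_pos (by positivity)
    rw [← one_div t, Real.log_div one_ne_zero hm.ne', Real.log_div one_ne_zero ht0.ne',
      Real.log_one, Real.log_mul ht0.ne' hm.ne']
    generalize Real.log (mass (1 / t)) = M
    generalize Real.log t = L at hl
    have hL := hl.ne'
    have e1 : (0 - M) / (0 - L) = M / L := by rw [zero_sub, zero_sub, neg_div_neg_eq]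
    rw [e1]
    field_simp
    ring
  constructor
  · intro h
    have h1 := (h.comp tendsto_inv_atTop_nhdsGT_zero).congr' key
    have h2 := (h1.neg.sub_const 1).add diff_zero
    have e : - -θ - 1 + 0 = -(1 - θ) := by ring
    rw [e] at h2
    refine h2.congr fun t => ?_
    ring
  · intro h
    have h1 := ((h.const_add 1).sub diff_zero).neg
    have e : -(1 + -(1 - θ) - 0) = -θ := by ring
    rw [e] at h1
    have h2 := h1.congr' (key.mono fun t ht => ht.symm)
    have h3 := h2.comp (tendsto_inv_nhdsGT_zero (𝕜 := ℝ))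
    refine h3.congr fun t => ?_
    simp only [Function.comp, inv_inv]

theorem exp_of_lim {θ b : ℝ} (hb : 0 < b) (hb1 : b < 1)
    (h1 : Tendsto (fun t : ℝ => ph t / Real.log t) atTop (𝓝 (-(1 - θ)))) : Exp θ b := by
  rw [exp_iff hb]
  refine lim_seq h1 ((tendsto_rpow_atTop (by linarith)).comp
    (tendsto_natCast_atTop_atTop (R := ℝ))) ?_
  refine tendsto_const_nhds.congr' ?_
  filter_upwards [eventually_ge_atTop 2] with n hn
  have hn0 : (0 : ℝ) < n := by exact_mod_cast (by omega : 0 < n)
  have hl : 0 < Real.log n := Real.log_pos (by exact_mod_cast (by omega : 1 < n))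
  rw [Real.log_rpow hn0]
  field_simp

theorem xi_of_exp {θ a : ℝ} (ha : 0 < a) (ha1 : a < 1) (h : Exp θ a) : XiExp θ :=
  xi_iff.2 (lim_real ha1 ((exp_iff ha).1 h))

theorem exp_of_xi {θ b : ℝ} (hb : 0 < b) (hb1 : b < 1) (h : XiExp θ) : Exp θ b :=
  exp_of_lim hb hb1 (xi_iff.1 h)

end Pool.Agent.J4H67.HM
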