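import Pool.Agent.J4H67.HM.C

/-!
High moments of the width of the self-avoiding polygons: all moments of order larger than `log n`.
-/

set_option autoImplicit false

namespace Pool.Agent.J4H67.HM

open Finset Filter Topology
open Pool.Agent.Y981.L2 (width R R_zero R_smul R_mono R_nonneg R_le pw pw_ldp loops_finite width_le
  mass mass_pos)
open H981 (IsLoop)

/-- **The scaling law** with its error for every order. -/
theorem scaling2 : ∃ C : ℝ, ∀ n : ℕ, 2 ≤ n → ∀ p : ℝ, 0 < p →
    0 < WW p n ∧ |Real.log (WW p n) / p - Real.log n - ph (n / p)| ≤ C * (1 + Real.log n ^ 2 / p) := by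
  obtain ⟨K, hK, h⟩ := pw_ldp
  obtain ⟨R1, hR1⟩ : ∃ R1 : ℝ, R1 = R 1 := ⟨_, rfl⟩
  have hR1' : 0 ≤ R1 := by rw [hR1]; exact R_nonneg zero_le_one le_rfl
  refine ⟨K + Real.log 2 + 2 + 8 * R1 + Real.log 4, fun n hn p hp0 => ?_⟩
  have hn' : (2 : ℝ) ≤ n := by exact_mod_cast hn
  have hn0 : (0 : ℝ) < n := by linarith
  have hl2 : 1 / 2 ≤ Real.log 2 := by have := Real.log_two_gt_d9; linarith
  have hln : Real.log 2 ≤ Real.log n := Real.log_le_log (by norm_num) hn'
  have hln0 : 0 < Real.log n := by linarith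
  have hs : 0 ≤ (n : ℝ) / p := by positivity
  have hl4 : 0 ≤ Real.log 4 := Real.log_nonneg (by norm_num)
  have hL4 : 1 ≤ 4 * Real.log n ^ 2 := by nlinarith
  have hL2 : Real.log n ≤ 2 * Real.log n ^ 2 := by nlinarith
  obtain ⟨q, hq⟩ : ∃ q : ℝ, q = Real.log n ^ 2 / p := ⟨_, rfl⟩
  have hq0 : 0 ≤ q := by rw [hq]; positivity
  rw [← hq]
  -- lower bound for `WW`
  have hlow : ∀ k : ℕ, 1 ≤ k → k < n →
      Real.log k - 2 * (n / p) * R ((k : ℝ) / n) - K * q ≤ Real.log (WW p n) / p ∧ 0 < WW p n := by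
    intro k hk hkn
    have hk0 : (0 : ℝ) < k := by exact_mod_cast hk
    have h1 := (h n hn k hk hkn).1
    have h2 := low hp0 (show 1 ≤ n by omega) k
    have h3 : (k : ℝ) ^ p * Real.exp (-(2 * (n * R ((k : ℝ) / n)) + K * Real.log n ^ 2)) ≤ WW p n :=
      (mul_le_mul_of_nonneg_left h1 (by positivity)).trans h2
    have hpos : 0 < (k : ℝ) ^ p * Real.exp (-(2 * (n * R ((k : ℝ) / n)) + K * Real.log n ^ 2)) := by
      positivity
    have h4 := Real.log_le_log hpos h3
    rw [Real.log_mul (by positivity) (Real.exp_pos _).ne', Real.log_exp, Real.log_rpow hk0] at h4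
    refine ⟨?_, hpos.trans_le h3⟩
    rw [le_div_iff₀ hp0]
    have h5 : (Real.log k - 2 * (n / p) * R ((k : ℝ) / n) - K * q) * p =
        p * Real.log k - 2 * (n * R ((k : ℝ) / n)) - K * Real.log n ^ 2 := by
      rw [hq]
      field_simp
    rw [h5]
    linarith
  have hW := (hlow 1 le_rfl (by omega)).2
  refine ⟨hW, ?_⟩
  have hR8 : 2 * R1 / p ≤ 8 * R1 * q := by
    rw [hq, div_le_iff₀ hp0]
    have e : 8 * R1 * (Real.log n ^ 2 / p) * p = 2 * R1 * (4 * Real.log n ^ 2) := by
      field_simp
      ring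
    rw [e]
    nlinarith
  -- `ph` is at most
  have hph : ph (n / p) ≤ Real.log (WW p n) / p - Real.log n + (K * q + Real.log 2 + 8 * R1 * q) := by
    refine ph_le fun x hx => ?_
    unfold val
    obtain ⟨hx0, hx1⟩ := hx
    have hRx := R_nonneg hx0.le hx1
    have hKq := mul_nonneg hK hq0
    rcases lt_or_ge (x * n) 1 with hxn | hxn
    · -- small `x`
      have h1 := (hlow 1 le_rfl (by omega)).1
      rw [Nat.cast_one, Real.log_one] at h1
      have h2 : Real.log x ≤ -Real.log n := by
        rw [← Real.log_inv]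
        refine Real.log_le_log hx0 ?_
        rw [← one_div, le_div_iff₀ hn0]
        exact hxn.le
      have h3 : R (1 / (n : ℝ)) ≤ 1 / n * R1 := by
        have := R_smul (v := 1) (t := 1 / (n : ℝ)) zero_le_one le_rfl (by positivity)
          (by rw [div_le_one hn0]; linarith)
        rw [mul_one] at this
        rw [hR1]
        exact this
      have h4 : 2 * (n / p) * R (1 / (n : ℝ)) ≤ 8 * R1 * q := by
        calc 2 * (n / p) * R (1 / (n : ℝ)) ≤ 2 * (n / p) * (1 / n * R1) :=
              mul_le_mul_of_nonneg_left h3 (by positivity)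
          _ = 2 * R1 / p := by field_simp
          _ ≤ 8 * R1 * q := hR8
      have h5 : 0 ≤ 2 * (n / p) * R x := by positivity
      linarith
    · -- the lattice point below `x`
      obtain ⟨k, hk1, hkn, hkx, hxk⟩ : ∃ k : ℕ, 1 ≤ k ∧ k < n ∧ (k : ℝ) ≤ x * n ∧ x * n / 2 ≤ k := by
        have hf1 : 1 ≤ ⌊x * n⌋₊ := Nat.le_floor (by exact_mod_cast hxn)
        have hf2 := Nat.floor_le (show 0 ≤ x * n by positivity)
        have hf3 := Nat.lt_floor_add_one (x * n)
        have hf1' : (1 : ℝ) ≤ ⌊x * n⌋₊ := by exact_mod_cast hf1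
        rcases Nat.lt_or_ge ⌊x * n⌋₊ n with h1 | h1
        · exact ⟨_, hf1, h1, hf2, by linarith⟩
        · refine ⟨n - 1, by omega, by omega, ?_, ?_⟩
          · have h2 : ((n - 1 : ℕ) : ℝ) ≤ (⌊x * n⌋₊ : ℝ) := by exact_mod_cast (by omega : n - 1 ≤ ⌊x * n⌋₊)
            linarith
          · have h2 : ((n - 1 : ℕ) : ℝ) = n - 1 := by
              rw [Nat.cast_sub (by omega), Nat.cast_one]
            rw [h2]
            nlinarith
      have hk0 : (0 : ℝ) < k := by exact_mod_cast hk1
      have h1 := (hlow k hk1 hkn).1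
      have h2 : (k : ℝ) / n ≤ x := by rw [div_le_iff₀ hn0]; exact hkx
      have h3 := R_mono (by positivity) h2 hx1
      have h4 : 2 * (n / p) * R ((k : ℝ) / n) ≤ 2 * (n / p) * R x :=
        mul_le_mul_of_nonneg_left h3 (by positivity)
      have h5 : Real.log x + Real.log n - Real.log 2 ≤ Real.log k := by
        rw [← Real.log_mul hx0.ne' hn0.ne', ← Real.log_div (by positivity) (by norm_num)]
        exact Real.log_le_log (by positivity) hxk
      have : 0 ≤ 8 * R1 * q := by positivity
      linarith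
  -- upper bound for `WW`
  have hupp : Real.log (WW p n) / p ≤ 2 * q + Real.log 4 + Real.log n + ph (n / p) + K * q := by
    have h1 : ∀ k ∈ Ico 1 n, (4 * (k : ℝ)) ^ p * pw n k ≤
        Real.exp (p * (Real.log 4 + Real.log n + ph (n / p)) + K * Real.log n ^ 2) := by
      intro k hk
      obtain ⟨hk1, hkn⟩ := mem_Ico.1 hk
      have hk0 : (0 : ℝ) < k := by exact_mod_cast hk1
      have h2 := (h n hn k hk1 hkn).2
      have h3 := le_ph (x := (k : ℝ) / n) hs ⟨by positivity, by
        rw [div_le_one hn0]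
        exact_mod_cast hkn.le⟩
      unfold val at h3
      rw [Real.log_div hk0.ne' hn0.ne'] at h3
      have h4 : (4 * (k : ℝ)) ^ p = Real.exp (p * (Real.log 4 + Real.log k)) := by
        rw [Real.rpow_def_of_pos (by positivity), Real.log_mul (by norm_num) hk0.ne', mul_comm]
      calc (4 * (k : ℝ)) ^ p * pw n k
          ≤ (4 * (k : ℝ)) ^ p * Real.exp (-(2 * (n * R ((k : ℝ) / n))) + K * Real.log n ^ 2) :=
            mul_le_mul_of_nonneg_left h2 (by positivity)
        _ = Real.exp (p * (Real.log 4 + Real.log k) +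
              (-(2 * (n * R ((k : ℝ) / n))) + K * Real.log n ^ 2)) := by
            rw [h4, ← Real.exp_add]
        _ ≤ _ := by
            refine Real.exp_le_exp.2 ?_
            have h5 := mul_le_mul_of_nonneg_left h3 hp0.le
            have h6 : p * (Real.log k - Real.log n - 2 * (n / p) * R ((k : ℝ) / n)) =
                p * Real.log k - p * Real.log n - 2 * (n * R ((k : ℝ) / n)) := by
              field_simp
            rw [h6] at h5
            linarith
    have h2 := (upp hp0 hn).trans (sum_le_sum h1)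
    rw [sum_const, nsmul_eq_mul, Nat.card_Ico] at h2
    have h3 : WW p n ≤ n * Real.exp (p * (Real.log 4 + Real.log n + ph (n / p)) +
        K * Real.log n ^ 2) := by
      refine h2.trans (mul_le_mul_of_nonneg_right ?_ (Real.exp_pos _).le)
      exact_mod_cast (by omega : n - 1 ≤ n)
    have h4 := Real.log_le_log hW h3
    rw [Real.log_mul hn0.ne' (Real.exp_pos _).ne', Real.log_exp] at h4
    rw [div_le_iff₀ hp0]
    have h5 : q * p = Real.log n ^ 2 := by
      rw [hq]
      field_simp
    nlinarith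
  have hl20 : 0 ≤ Real.log 2 := by linarith
  have hb1 : 0 ≤ R1 * q := mul_nonneg hR1' hq0
  have hb2 : 0 ≤ Real.log 2 * q := mul_nonneg hl20 hq0
  have hb3 : 0 ≤ Real.log 4 * q := mul_nonneg hl4 hq0
  have hb4 : 0 ≤ K * q := mul_nonneg hK hq0
  have e : (K + Real.log 2 + 2 + 8 * R1 + Real.log 4) * (1 + q) =
      K + Real.log 2 + 2 + 8 * R1 + Real.log 4 + K * q + Real.log 2 * q + 2 * q + 8 * (R1 * q) +
        Real.log 4 * q := by ring
  rw [e, abs_le]
  constructor <;> linarith

/-- **The moments are given by the correlation length**, with the error for every order. -/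
theorem norm_mass2 : ∃ C : ℝ, ∀ n : ℕ, 2 ≤ n → ∀ p : ℝ, 0 < p →
    0 < WW p n ∧ |Real.log (WW p n) / p - Real.log (p * (1 / mass (p / n)))| ≤
      C * (1 + Real.log n ^ 2 / p) := by
  obtain ⟨C, hC⟩ := scaling2
  refine ⟨C + 3, fun n hn p hp0 => ?_⟩
  obtain ⟨h0, h1⟩ := hC n hn p hp0
  have hn0 : (0 : ℝ) < n := by exact_mod_cast (by omega : 0 < n)
  have h2 := ph_mass (s := n / p) (by positivity)
  rw [one_div_div] at h2
  have hm : 0 < mass (p / n) := mass_pos (by positivity)
  have e : Real.log (p * (1 / mass (p / n))) = Real.log n - Real.log ((n : ℝ) / p * mass (p / n)) := by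
    rw [← Real.log_div hn0.ne' (by positivity)]
    congr 1
    field_simp
  have hq : 0 ≤ Real.log n ^ 2 / p := by positivity
  refine ⟨h0, ?_⟩
  have e2 : (C + 3) * (1 + Real.log n ^ 2 / p) = C * (1 + Real.log n ^ 2 / p) + 3 +
      3 * (Real.log n ^ 2 / p) := by ring
  rw [e, e2]
  rw [abs_le] at h1 h2 ⊢
  constructor <;> linarith [h1.1, h1.2, h2.1, h2.2]

/-- sequences of orders larger than `log n` -/
def Ord (p : ℕ → ℝ) (a : ℝ) : Prop :=
  Tendsto (fun n : ℕ => p n / Real.log n) atTop atTop ∧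
    Tendsto (fun n : ℕ => Real.log (p n) / Real.log n) atTop (𝓝 a)

theorem conv2 {p : ℕ → ℝ} (hp : Tendsto (fun n : ℕ => p n / Real.log n) atTop atTop) (L : ℝ) :
    Tendsto (fun n : ℕ => Real.log (WW (p n) n) / p n / Real.log n) atTop (𝓝 L) ↔
      Tendsto (fun n : ℕ => ph (n / p n) / Real.log n) atTop (𝓝 (L - 1)) := by
  obtain ⟨C, hC⟩ := scaling2
  have hD : Tendsto (fun n : ℕ => Real.log (WW (p n) n) / p n / Real.log n - 1 -
      ph (n / p n) / Real.log n) atTop (𝓝 0) := by
    have h0 : Tendsto (fun n : ℕ => C / Real.log n + C * (p n / Real.log n)⁻¹) atTop (𝓝 0) := by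
      have h1 : Tendsto (fun n : ℕ => C / Real.log n) atTop (𝓝 0) :=
        tendsto_const_nhds.div_atTop tendsto_log_nat
      have h2 := (hp.inv_tendsto_atTop).const_mul C
      have h3 := h1.add h2
      simpa using h3
    refine squeeze_zero_norm' ?_ h0
    filter_upwards [hp.eventually_gt_atTop 0, eventually_ge_atTop 2] with n h1 hn
    have hl : 0 < Real.log n := Real.log_pos (by exact_mod_cast (by omega : 1 < n))
    have hp0 : 0 < p n := by
      have := mul_pos h1 hl
      rwa [div_mul_cancel₀ _ hl.ne'] at this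
    have h2 := (hC n hn (p n) hp0).2
    have e : Real.log (WW (p n) n) / p n / Real.log n - 1 - ph (n / p n) / Real.log n =
        (Real.log (WW (p n) n) / p n - Real.log n - ph (n / p n)) / Real.log n := by
      field_simp
    rw [e, Real.norm_eq_abs, abs_div, abs_of_pos hl, div_le_iff₀ hl]
    refine h2.trans_eq ?_
    field_simp
  constructor
  · intro h
    have h1 := (h.sub hD).sub_const 1
    rw [sub_zero] at h1
    refine h1.congr fun n => ?_
    ring
  · intro h
    have h1 := (h.add hD).add_const 1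
    rw [add_zero, sub_add_cancel] at h1
    refine h1.congr fun n => ?_
    ring

theorem ph_lip {s t : ℝ} (hs : 0 < s) (ht : 0 < t) : |ph s - ph t| ≤ |Real.log s - Real.log t| := by
  rcases le_total s t with h | h
  · have h1 := ph_anti hs.le h
    have h2 := ph_log hs h
    rw [abs_of_nonneg (by linarith), abs_of_nonpos (by linarith)]
    linarith
  · have h1 := ph_anti ht.le h
    have h2 := ph_log ht h
    rw [abs_of_nonpos (by linarith), abs_of_nonneg (by linarith)]
    linarith

/-- from one sequence to all arguments -/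
theorem lim_real2 {c θ : ℝ} (hc : 0 < c) {s : ℕ → ℝ} (hs : ∀ᶠ n in atTop, 0 < s n)
    (hsc : Tendsto (fun n : ℕ => Real.log (s n) / Real.log n) atTop (𝓝 c))
    (h : Tendsto (fun n : ℕ => ph (s n) / Real.log n) atTop (𝓝 (-(c * (1 - θ))))) :
    Tendsto (fun t : ℝ => ph t / Real.log t) atTop (𝓝 (-(1 - θ))) := by
  obtain ⟨N, hN⟩ : ∃ N : ℝ → ℕ, ∀ t, N t = ⌊t ^ (1 / c)⌋₊ := ⟨_, fun _ => rfl⟩
  have hpw : Tendsto (fun t : ℝ => t ^ (1 / c)) atTop atTop := tendsto_rpow_atTop (by positivity)
  have hNt : Tendsto N atTop atTop := by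
    have h1 : Tendsto (fun t : ℝ => ⌊t ^ (1 / c)⌋₊) atTop atTop := tendsto_nat_floor_atTop.comp hpw
    exact h1.congr fun t => (hN t).symm
  have hr : Tendsto (fun t : ℝ => Real.log (N t) / Real.log t) atTop (𝓝 (1 / c)) := by
    have h1 : Tendsto (fun x : ℝ => Real.log ((⌊x⌋₊ : ℝ) / x)) atTop (𝓝 0) := by
      have := (tendsto_nat_floor_div_atTop (R := ℝ)).log one_ne_zero
      rwa [Real.log_one] at this
    have h2 := ((h1.comp hpw).div_atTop Real.tendsto_log_atTop).add_const (1 / c)
    rw [zero_add] at h2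
    refine h2.congr' ?_
    filter_upwards [eventually_gt_atTop 1, hNt.eventually_ge_atTop 1] with t ht hNt1
    have hl := Real.log_pos ht
    have ht0 : 0 < t := by linarith
    have hN0 : (0 : ℝ) < N t := by exact_mod_cast hNt1
    simp only [Function.comp]
    rw [← hN, Real.log_div hN0.ne' (by positivity), Real.log_rpow ht0]
    field_simp
    ring
  have h1 := (h.comp hNt).mul hr
  have e1 : -(c * (1 - θ)) * (1 / c) = -(1 - θ) := by field_simp
  rw [e1] at h1
  have h2 := (hsc.comp hNt).mul hr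
  have e2 : c * (1 / c) = 1 := by field_simp
  rw [e2] at h2
  have h3 : Tendsto (fun t : ℝ => (ph (s (N t)) - ph t) / Real.log t) atTop (𝓝 0) := by
    have h4 := (h2.sub_const 1).norm
    rw [sub_self, norm_zero] at h4
    refine squeeze_zero_norm' ?_ h4
    filter_upwards [eventually_gt_atTop 1, hNt.eventually hs, hNt.eventually_ge_atTop 2]
      with t ht hst hN2
    have hl := Real.log_pos ht
    have hlN : 0 < Real.log (N t) := Real.log_pos (by exact_mod_cast (by omega : 1 < N t))
    have h5 := ph_lip hst (show 0 < t by linarith)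
    simp only [Function.comp]
    rw [Real.norm_eq_abs, abs_div, abs_of_pos hl, div_le_iff₀ hl, Real.norm_eq_abs,
      ← abs_of_pos hl, ← abs_mul, abs_of_pos hl]
    refine h5.trans_eq ?_
    congr 1
    field_simp
  have h6 := h1.sub h3
  rw [sub_zero] at h6
  refine h6.congr' ?_
  filter_upwards [eventually_gt_atTop 1, hNt.eventually_ge_atTop 2] with t ht hN2
  have hl := Real.log_pos ht
  have hlN : 0 < Real.log (N t) := Real.log_pos (by exact_mod_cast (by omega : 1 < N t))
  simp only [Function.comp]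
  field_simp
  ring

theorem ord_pos {p : ℕ → ℝ} {a : ℝ} (hp : Ord p a) : ∀ᶠ n in atTop, 0 < p n := by
  filter_upwards [hp.1.eventually_gt_atTop 0, eventually_ge_atTop 2] with n h1 hn
  have hl : 0 < Real.log n := Real.log_pos (by exact_mod_cast (by omega : 1 < n))
  have := mul_pos h1 hl
  rwa [div_mul_cancel₀ _ hl.ne'] at this

theorem ord_s {p : ℕ → ℝ} {a : ℝ} (hp : Ord p a) :
    Tendsto (fun n : ℕ => Real.log (n / p n) / Real.log n) atTop (𝓝 (1 - a)) := by
  refine (hp.2.const_sub 1).congr' ?_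
  filter_upwards [ord_pos hp, eventually_ge_atTop 2] with n h1 hn
  have hl : 0 < Real.log n := Real.log_pos (by exact_mod_cast (by omega : 1 < n))
  have hn0 : (0 : ℝ) < n := by exact_mod_cast (by omega : 0 < n)
  rw [Real.log_div hn0.ne' h1.ne']
  field_simp

/-- the exponent along a sequence of orders -/
def Exp2 (p : ℕ → ℝ) (τ : ℝ) : Prop :=
  Tendsto (fun n : ℕ => Real.log (WW (p n) n) / p n / Real.log n) atTop (𝓝 τ)

theorem xi_of_exp2 {θ a : ℝ} (ha1 : a < 1) {p : ℕ → ℝ} (hp : Ord p a)
    (h : Exp2 p (a + (1 - a) * θ)) : XiExp θ := by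
  have h1 := (conv2 hp.1 _).1 h
  have e : a + (1 - a) * θ - 1 = -((1 - a) * (1 - θ)) := by ring
  rw [e] at h1
  refine xi_iff.2 (lim_real2 (by linarith) ?_ (ord_s hp) h1)
  filter_upwards [ord_pos hp, eventually_ge_atTop 1] with n h2 hn
  have hn0 : (0 : ℝ) < n := by exact_mod_cast hn
  positivity

theorem exp2_of_xi {θ a : ℝ} (ha1 : a < 1) {p : ℕ → ℝ} (hp : Ord p a) (h : XiExp θ) :
    Exp2 p (a + (1 - a) * θ) := by
  refine (conv2 hp.1 _).2 ?_
  have e : a + (1 - a) * θ - 1 = -((1 - a) * (1 - θ)) := by ring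
  rw [e]
  refine lim_seq (xi_iff.1 h) ?_ (ord_s hp)
  have h1 := (ord_s hp).pos_mul_atTop (by linarith) tendsto_log_nat
  have h2 : Tendsto (fun n : ℕ => Real.log (n / p n)) atTop atTop := by
    refine h1.congr' ?_
    filter_upwards [eventually_ge_atTop 2] with n hn
    have hl : 0 < Real.log n := Real.log_pos (by exact_mod_cast (by omega : 1 < n))
    exact div_mul_cancel₀ _ hl.ne'
  have h3 := Real.tendsto_exp_atTop.comp h2
  refine h3.congr' ?_
  filter_upwards [ord_pos hp, eventually_ge_atTop 1] with n h4 hn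
  have hn0 : (0 : ℝ) < n := by exact_mod_cast hn
  simp only [Function.comp]
  exact Real.exp_log (by positivity)

end Pool.Agent.J4H67.HM
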