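import Pool.Agent.J4H67.HM.D

/-!
High moments of the end-to-end distance of the self-avoiding walk.
-/

set_option autoImplicit false

namespace Pool.Agent.J4H67.HM

open Pool.Agent.TH795.EP Pool.Agent.TH795.EP2 Pool.Agent.TH795.SE2 Pool.Agent.TH262.SawL
open Pool.Agent.Y981.L2 (Z Lam Z_sg Z_ng Z_sw Z_le Z_pos psi far le_far R R_nonneg R_mono R_zero mass
  mass_pos psi_le_of_lt a_origin adjust)
open H981 Finset Filter Topology

/-- the distance of the end point -/
noncomputable def dd (w : List St) : ℝ := Real.sqrt ((dx w : ℝ) ^ 2 + (dy w : ℝ) ^ 2)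

/-- the moment of order `p` of the distance of the end point -/
noncomputable def DD (p : ℝ) (n : ℕ) : ℝ := (∑ w ∈ fs Saw n, dd w ^ p) / c n

theorem dd_nonneg (w : List St) : 0 ≤ dd w := Real.sqrt_nonneg _

theorem exp_dd {h : ℝ} (h0 : 0 ≤ h) (w : List St) : Real.exp (h * dd w / 2) ≤
    Real.exp (h * dx w) + Real.exp (-h * dx w) + Real.exp (h * dy w) + Real.exp (-h * dy w) := by
  obtain ⟨r, hr⟩ : ∃ r, r = dd w := ⟨_, rfl⟩
  have hr0 : 0 ≤ r := by rw [hr]; exact dd_nonneg w
  rw [← hr]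
  have p1 := Real.exp_pos (h * dx w)
  have p2 := Real.exp_pos (-h * dx w)
  have p3 := Real.exp_pos (h * dy w)
  have p4 := Real.exp_pos (-h * dy w)
  have hor : r / 2 ≤ |(dx w : ℝ)| ∨ r / 2 ≤ |(dy w : ℝ)| := by
    by_contra hcon
    push Not at hcon
    obtain ⟨q1, q2⟩ := hcon
    have a1 := abs_nonneg (dx w : ℝ)
    have a2 := abs_nonneg (dy w : ℝ)
    have h2 : (dx w : ℝ) ^ 2 + (dy w : ℝ) ^ 2 < r ^ 2 := by
      rw [← sq_abs (dx w : ℝ), ← sq_abs (dy w : ℝ)]
      nlinarith
    have h3 := Real.sqrt_lt_sqrt (by positivity) h2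
    rw [Real.sqrt_sq hr0] at h3
    exact lt_irrefl _ (hr ▸ h3 : r < r)
  rcases hor with h2 | h2
  · rcases abs_cases (dx w : ℝ) with ⟨h3, _⟩ | ⟨h3, _⟩
    · have : Real.exp (h * r / 2) ≤ Real.exp (h * dx w) := by
        apply Real.exp_le_exp.2
        rw [h3] at h2
        nlinarith
      linarith
    · have : Real.exp (h * r / 2) ≤ Real.exp (-h * dx w) := by
        apply Real.exp_le_exp.2
        rw [h3] at h2
        nlinarith
      linarith
  · rcases abs_cases (dy w : ℝ) with ⟨h3, _⟩ | ⟨h3, _⟩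
    · have : Real.exp (h * r / 2) ≤ Real.exp (h * dy w) := by
        apply Real.exp_le_exp.2
        rw [h3] at h2
        nlinarith
      linarith
    · have : Real.exp (h * r / 2) ≤ Real.exp (-h * dy w) := by
        apply Real.exp_le_exp.2
        rw [h3] at h2
        nlinarith
      linarith

theorem sum_exp {n : ℕ} {h : ℝ} (h0 : 0 ≤ h) :
    ∑ w ∈ fs Saw n, Real.exp (h * dd w / 2) ≤ 4 * Z (h, 0) n := by
  have e1 : Z (-h, 0) n = Z (h, 0) n := Z_sg (h, 0) n
  have e2 : Z (0, h) n = Z (h, 0) n := Z_sw (h, 0) n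
  have e3 : Z (0, -h) n = Z (h, 0) n := by
    rw [← e2]
    exact Z_ng (0, h) n
  have e4 : 4 * Z (h, 0) n = ∑ w ∈ fs Saw n, (Real.exp (h * dx w) + Real.exp (-h * dx w) +
      Real.exp (h * dy w) + Real.exp (-h * dy w)) := by
    have s1 : Z (h, 0) n = ∑ w ∈ fs Saw n, Real.exp (h * dx w) := by
      unfold Z
      apply Finset.sum_congr rfl
      intro w _
      simp
    have s2 : Z (-h, 0) n = ∑ w ∈ fs Saw n, Real.exp (-h * dx w) := by
      unfold Z
      apply Finset.sum_congr rfl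
      intro w _
      simp
    have s3 : Z (0, h) n = ∑ w ∈ fs Saw n, Real.exp (h * dy w) := by
      unfold Z
      apply Finset.sum_congr rfl
      intro w _
      simp
    have s4 : Z (0, -h) n = ∑ w ∈ fs Saw n, Real.exp (-h * dy w) := by
      unfold Z
      apply Finset.sum_congr rfl
      intro w _
      simp
    rw [Finset.sum_add_distrib, Finset.sum_add_distrib, Finset.sum_add_distrib, ← s1, ← s2, ← s3,
      ← s4, e1, e2, e3]
    ring
  rw [e4]
  exact Finset.sum_le_sum fun w _ => exp_dd h0 w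

theorem pow_le_exp {p h r : ℝ} (hp : 0 < p) (hh : 0 < h) (hr : 0 ≤ r) :
    r ^ p ≤ Real.exp (p * Real.log (2 * p / h)) * Real.exp (h * r / 2) := by
  rcases hr.eq_or_lt with h0 | h0
  · rw [← h0, Real.zero_rpow hp.ne']
    positivity
  · rw [Real.rpow_def_of_pos h0, ← Real.exp_add]
    refine Real.exp_le_exp.2 ?_
    have hy : 0 < h * r / (2 * p) := by positivity
    have h1 := Real.log_le_sub_one_of_pos hy
    have h2 : Real.log r = Real.log (2 * p / h) + Real.log (h * r / (2 * p)) := by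
      rw [← Real.log_mul (by positivity) hy.ne']
      congr 1
      field_simp
    have h3 : p * (h * r / (2 * p)) = h * r / 2 := by field_simp
    rw [h2]
    nlinarith

theorem DD_up : ∃ C : ℝ, 0 ≤ C ∧ ∀ n : ℕ, 2 ≤ n → ∀ p : ℝ, 0 < p →
    DD p n ≤ Real.exp (p * (Real.log (p * (1 / mass (p / n))) + Real.log 4 + 1) +
      C * Real.log n ^ 2 + 2) := by
  obtain ⟨K, hK, hZ⟩ := Z_le
  refine ⟨K, hK, fun n hn p hp => ?_⟩
  have hmu := mu_pos
  have hn0 : (0 : ℝ) < n := by exact_mod_cast (by omega : 0 < n)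
  have he : 0 < p / n := by positivity
  have hM := mass_pos he
  obtain ⟨h, hh⟩ : ∃ h, h = mass (p / n) / 2 := ⟨_, rfl⟩
  have h0 : 0 < h := by rw [hh]; positivity
  have hpsi : psi h ≤ p / n := psi_le_of_lt he.le h0.le (by rw [hh]; linarith)
  have hlog : Real.log (2 * p / h) = Real.log (p * (1 / mass (p / n))) + Real.log 4 := by
    rw [← Real.log_mul (by positivity) (by norm_num), hh]
    congr 1
    field_simp
    norm_num
  have h2 : Z (h, 0) n ≤ Real.exp (n * (Lam (h, 0) + Real.log mu) + K * Real.log n ^ 2) := by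
    rw [← Real.log_le_iff_le_exp (Z_pos _ _)]
    exact hZ n hn (h, 0)
  have h3 : Real.exp (n * Real.log mu) ≤ c n := by
    have h1 : mu ^ n ≤ c n := by rw [c_eq]; exact mu_pow_le n
    rwa [mul_comm, Real.exp_mul, Real.exp_log hmu, Real.rpow_natCast]
  have h5 : (4 : ℝ) ≤ Real.exp 2 := by
    have h6 := Real.exp_one_gt_d9
    have h7 : Real.exp 2 = Real.exp 1 * Real.exp 1 := by rw [← Real.exp_add]; norm_num
    rw [h7]
    nlinarith
  have hc := c_pos n
  unfold DD
  rw [div_le_iff₀ hc]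
  have hpn : n * psi h ≤ p := by
    have := mul_le_mul_of_nonneg_left hpsi hn0.le
    have e : (n : ℝ) * (p / n) = p := by field_simp
    rwa [e] at this
  calc ∑ w ∈ fs Saw n, dd w ^ p
      ≤ ∑ w ∈ fs Saw n, Real.exp (p * Real.log (2 * p / h)) * Real.exp (h * dd w / 2) :=
        sum_le_sum fun w _ => pow_le_exp hp h0 (dd_nonneg w)
    _ = Real.exp (p * Real.log (2 * p / h)) * ∑ w ∈ fs Saw n, Real.exp (h * dd w / 2) := by
        rw [mul_sum]
    _ ≤ Real.exp (p * Real.log (2 * p / h)) * (Real.exp 2 *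
        Real.exp (n * (Lam (h, 0) + Real.log mu) + K * Real.log n ^ 2)) := by
        refine mul_le_mul_of_nonneg_left ((sum_exp h0.le).trans ?_) (Real.exp_pos _).le
        exact mul_le_mul h5 h2 (Z_pos _ _).le (Real.exp_pos _).le
    _ ≤ Real.exp (p * (Real.log (p * (1 / mass (p / n))) + Real.log 4 + 1) +
        K * Real.log n ^ 2 + 2) * Real.exp (n * Real.log mu) := by
        rw [← Real.exp_add, ← Real.exp_add, ← Real.exp_add]
        refine Real.exp_le_exp.2 ?_
        rw [hlog]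
        have : n * Lam (h, 0) ≤ p := hpn
        linarith
    _ ≤ _ := mul_le_mul_of_nonneg_left h3 (Real.exp_pos _).le

theorem one_le_dd {n : ℕ} (hn : 1 ≤ n) {w : List St} (hw : w ∈ fs Saw n) : 1 ≤ dd w := by
  have h0 : ¬ (dx w = 0 ∧ dy w = 0) := by
    intro hcon
    have h1 := a_origin hn
    unfold a at h1
    rw [Finset.card_eq_zero] at h1
    have h2 : w ∈ fs (fun w => Saw w ∧ dx w = 0 ∧ dy w = 0) n := by
      rw [mem_fs] at hw ⊢
      exact ⟨⟨hw.1, hcon⟩, hw.2⟩
    rw [h1] at h2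
    simp at h2
  unfold dd
  rw [Real.one_le_sqrt]
  have h1 : (1 : ℤ) ≤ dx w ^ 2 + dy w ^ 2 := by
    by_contra hcon
    push Not at hcon
    have h2 := sq_nonneg (dx w)
    have h3 := sq_nonneg (dy w)
    exact h0 ⟨by nlinarith, by nlinarith⟩
  exact_mod_cast h1

theorem one_le_DD {p : ℝ} (hp : 0 < p) {n : ℕ} (hn : 1 ≤ n) : 1 ≤ DD p n := by
  unfold DD
  rw [le_div_iff₀ (c_pos n), one_mul]
  have : (c n : ℝ) = ∑ w ∈ fs Saw n, (1 : ℝ) := by
    rw [sum_const, nsmul_eq_mul, mul_one]
    rfl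
  rw [this]
  exact sum_le_sum fun w hw => Real.one_le_rpow (one_le_dd hn hw) hp.le

theorem DD_low {p : ℝ} (hp : 0 < p) (n k : ℕ) : (k : ℝ) ^ p * far n k ≤ DD p n := by
  unfold DD far
  rw [← mul_div_assoc]
  refine div_le_div_of_nonneg_right ?_ (c_pos n).le
  calc (k : ℝ) ^ p *
      ((fs (fun w => Saw w ∧ (k : ℝ) ≤ Real.sqrt ((dx w : ℝ) ^ 2 + (dy w : ℝ) ^ 2)) n).card : ℝ)
      = ∑ w ∈ fs (fun w => Saw w ∧ (k : ℝ) ≤ Real.sqrt ((dx w : ℝ) ^ 2 + (dy w : ℝ) ^ 2)) n,
          (k : ℝ) ^ p := by rw [sum_const, nsmul_eq_mul, mul_comm]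
    _ ≤ ∑ w ∈ fs (fun w => Saw w ∧ (k : ℝ) ≤ Real.sqrt ((dx w : ℝ) ^ 2 + (dy w : ℝ) ^ 2)) n,
          dd w ^ p := by
        refine sum_le_sum fun w hw => ?_
        rw [mem_fs] at hw
        exact Real.rpow_le_rpow (Nat.cast_nonneg _) hw.1.2 hp.le
    _ ≤ _ := by
        refine sum_le_sum_of_subset_of_nonneg ?_ fun w _ _ =>
          Real.rpow_nonneg (dd_nonneg w) _
        intro w hw
        rw [mem_fs] at hw ⊢
        exact ⟨hw.1.1, hw.2⟩

/-- **The moments of the walk are given by the correlation length.** -/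
theorem walk_mass : ∃ C : ℝ, ∀ n : ℕ, 2 ≤ n → ∀ p : ℝ, 0 < p →
    1 ≤ DD p n ∧ |Real.log (DD p n) / p - Real.log (p * (1 / mass (p / n)))| ≤
      C * (1 + Real.log n ^ 2 / p) := by
  obtain ⟨K, hK, hup⟩ := DD_up
  obtain ⟨K', hK', hfar⟩ := le_far
  refine ⟨K + K' + Real.log 4 + 12, fun n hn p hp => ?_⟩
  have hn' : (2 : ℝ) ≤ n := by exact_mod_cast hn
  have hn0 : (0 : ℝ) < n := by linarith
  have hl2 : 1 / 2 ≤ Real.log 2 := by have := Real.log_two_gt_d9; linarith
  have hln : Real.log 2 ≤ Real.log n := Real.log_le_log (by norm_num) hn'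
  have hln0 : 0 < Real.log n := by linarith
  have hl4 : 0 ≤ Real.log 4 := Real.log_nonneg (by norm_num)
  have hL4 : 1 ≤ 4 * Real.log n ^ 2 := by nlinarith
  obtain ⟨q, hq⟩ : ∃ q : ℝ, q = Real.log n ^ 2 / p := ⟨_, rfl⟩
  have hq0 : 0 ≤ q := by rw [hq]; positivity
  rw [← hq]
  have hqp : q * p = Real.log n ^ 2 := by
    rw [hq]
    field_simp
  have h1 := one_le_DD hp (show 1 ≤ n by omega)
  have hpos : 0 < DD p n := by linarith
  refine ⟨h1, ?_⟩
  -- upper bound
  have hU : Real.log (DD p n) / p ≤ Real.log (p * (1 / mass (p / n))) + Real.log 4 + 1 + K * q +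
      8 * q := by
    have h2 := Real.log_le_log hpos (hup n hn p hp)
    rw [Real.log_exp] at h2
    rw [div_le_iff₀ hp]
    have h3 : (Real.log (p * (1 / mass (p / n))) + Real.log 4 + 1 + K * q + 8 * q) * p =
        p * (Real.log (p * (1 / mass (p / n))) + Real.log 4 + 1) + K * (q * p) + 8 * (q * p) := by
      ring
    rw [h3, hqp]
    linarith
  -- lower bound
  have hL : ph (n / p) ≤ Real.log (DD p n) / p - Real.log n + (2 + K' * q) := by
    refine ph_le fun x hx => ?_
    unfold val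
    obtain ⟨hx0, hx1⟩ := hx
    have hRx := R_nonneg hx0.le hx1
    have hKq := mul_nonneg hK' hq0
    have hnp : 0 ≤ (n : ℝ) / p := by positivity
    have hnR : 0 ≤ (n : ℝ) / p * R x := mul_nonneg hnp hRx
    have hlog3 : Real.log 3 ≤ 2 := by
      have := Real.log_le_sub_one_of_pos (show (0 : ℝ) < 3 by norm_num)
      linarith
    rcases lt_or_ge (x * n) 3 with hxn | hxn
    · have h2 : Real.log x + Real.log n ≤ Real.log 3 := by
        rw [← Real.log_mul hx0.ne' hn0.ne']
        exact Real.log_le_log (by positivity) hxn.le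
      have h3 : 0 ≤ Real.log (DD p n) / p := div_nonneg (Real.log_nonneg h1) hp.le
      linarith
    · obtain ⟨k, hk1, hk2, hk3⟩ := adjust n (show 2 ≤ x * n by linarith)
      have hk : x * n / 3 ≤ k := by linarith
      have hk0 : (0 : ℝ) < k := by linarith
      have hk0' : 1 ≤ k := by exact_mod_cast hk0
      have hkn : k ≤ n := by
        have : (k : ℝ) ≤ n := by nlinarith
        exact_mod_cast this
      have h2 := hfar n k hn hk0' hkn hk3 (k : ℝ) le_rfl
      have h3 := DD_low hp n k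
      have h4 : (k : ℝ) ^ p * Real.exp (-(n * R ((k : ℝ) / n) + K' * Real.log n ^ 2)) ≤ DD p n :=
        (mul_le_mul_of_nonneg_left h2 (by positivity)).trans h3
      have h5 := Real.log_le_log (by positivity) h4
      rw [Real.log_mul (by positivity) (Real.exp_pos _).ne', Real.log_exp, Real.log_rpow hk0] at h5
      have h6 : Real.log k - n / p * R ((k : ℝ) / n) - K' * q ≤ Real.log (DD p n) / p := by
        rw [le_div_iff₀ hp]
        have h7 : (Real.log k - n / p * R ((k : ℝ) / n) - K' * q) * p =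
            p * Real.log k - n * R ((k : ℝ) / n) - K' * (q * p) := by
          field_simp
        rw [h7, hqp]
        linarith
      have h7 : R ((k : ℝ) / n) ≤ R x := R_mono (by positivity)
        (by rw [div_le_iff₀ hn0]; exact hk1) hx1
      have h8 := mul_le_mul_of_nonneg_left h7 hnp
      have h9 : Real.log x + Real.log n - Real.log 3 ≤ Real.log k := by
        rw [← Real.log_mul hx0.ne' hn0.ne', ← Real.log_div (by positivity) (by norm_num)]
        exact Real.log_le_log (by positivity) hk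
      linarith
  have h2 := ph_mass (s := n / p) (by positivity)
  rw [one_div_div] at h2
  have hm : 0 < mass (p / n) := mass_pos (by positivity)
  have e : Real.log (p * (1 / mass (p / n))) = Real.log n - Real.log ((n : ℝ) / p * mass (p / n)) := by
    rw [← Real.log_div hn0.ne' (by positivity)]
    congr 1
    field_simp
  have b1 := mul_nonneg hK hq0
  have b2 := mul_nonneg hK' hq0
  have b3 := mul_nonneg hl4 hq0
  have e2 : (K + K' + Real.log 4 + 12) * (1 + q) = K + K' + Real.log 4 + 12 + K * q + K' * q +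
      Real.log 4 * q + 12 * q := by ring
  rw [e2]
  have h3 := abs_le.1 h2
  rw [abs_le]
  constructor
  · rw [e]
    linarith [h3.1, h3.2]
  · linarith

end Pool.Agent.J4H67.HM
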