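import Pool.Agent.J4H67.HM.E

/-!
The width of the polygons and the end-to-end distance of the walks: comparison of the high moments.
-/

set_option autoImplicit false

namespace Pool.Agent.J4H67.HM

open Pool.Agent.TH795.EP Pool.Agent.TH795.EP2 Pool.Agent.TH795.SE2 Pool.Agent.TH262.SawL
open H981 Finset Filter Topology

theorem compare : ∃ C : ℝ, 0 ≤ C ∧ ∀ n : ℕ, 2 ≤ n → ∀ p : ℝ, 0 < p →
    0 < WW p n ∧ 1 ≤ DD p n ∧
      |Real.log (WW p n) / p - Real.log (DD p n) / p| ≤ C * (1 + Real.log n ^ 2 / p) := by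
  obtain ⟨C1, h1⟩ := norm_mass2
  obtain ⟨C2, h2⟩ := walk_mass
  refine ⟨|C1| + |C2|, by positivity, fun n hn p hp => ?_⟩
  obtain ⟨a1, a2⟩ := h1 n hn p hp
  obtain ⟨b1, b2⟩ := h2 n hn p hp
  refine ⟨a1, b1, ?_⟩
  have hq : 0 ≤ 1 + Real.log n ^ 2 / p := by positivity
  have e1 := mul_le_mul_of_nonneg_right (le_abs_self C1) hq
  have e2 := mul_le_mul_of_nonneg_right (le_abs_self C2) hq
  rw [add_mul]
  have a3 := abs_le.1 a2
  have b3 := abs_le.1 b2
  rw [abs_le]
  constructor <;> linarith [a3.1, a3.2, b3.1, b3.2]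

theorem jensenD {q : ℝ} (hq : 1 ≤ q) (n : ℕ) : DD 1 n ≤ (DD q n) ^ (1 / q) := by
  have hc := c_pos n
  have h := Real.arith_mean_le_rpow_mean (fs Saw n) (fun _ => 1 / (c n : ℝ)) dd
    (fun _ _ => by positivity) (by
      rw [sum_const, nsmul_eq_mul]
      exact mul_one_div_cancel hc.ne') (fun w _ => dd_nonneg w) hq
  rw [← mul_sum, ← mul_sum] at h
  unfold DD
  simp only [Real.rpow_one]
  rw [div_eq_mul_one_div, mul_comm, div_eq_mul_one_div (∑ w ∈ fs Saw n, dd w ^ q),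
    mul_comm (∑ w ∈ fs Saw n, dd w ^ q)]
  exact h

theorem jensenW {q : ℝ} (hq : 1 ≤ q) {n : ℕ} (hn : 2 ≤ n) : WW 1 n ≤ (WW q n) ^ (1 / q) := by
  obtain ⟨C, _, hC⟩ := compare
  have hn1 : 1 ≤ n := by omega
  have hpos := (hC n hn q (by linarith)).1
  refine jensen hq hn1 ?_
  by_contra hcon
  have h0 : (Pool.Agent.Y981.L2.loops_finite hn1).toFinset.card = 0 := by omega
  rw [WW_eq _ hn1, h0, Nat.cast_zero, div_zero] at hpos
  exact lt_irrefl _ hpos

theorem rpow_exp {x p : ℝ} (hx : 0 < x) : x ^ (1 / p) = Real.exp (Real.log x / p) := by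
  rw [Real.rpow_def_of_pos hx]
  congr 1
  ring

theorem mean_both : ∃ C : ℝ, 0 ≤ C ∧ ∀ n : ℕ, 2 ≤ n → ∀ p : ℝ, 1 ≤ p →
    WW 1 n ≤ Real.exp (C * (1 + Real.log n ^ 2 / p)) * (DD p n) ^ (1 / p) ∧
    DD 1 n ≤ Real.exp (C * (1 + Real.log n ^ 2 / p)) * (WW p n) ^ (1 / p) := by
  obtain ⟨C, hC0, hC⟩ := compare
  refine ⟨C, hC0, fun n hn p hp => ?_⟩
  obtain ⟨h1, h2, h3⟩ := hC n hn p (by linarith)
  have h4 := abs_le.1 h3
  have hD : 0 < DD p n := by linarith
  constructor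
  · refine (jensenW hp hn).trans ?_
    rw [rpow_exp h1, rpow_exp hD, ← Real.exp_add]
    exact Real.exp_le_exp.2 (by linarith [h4.2])
  · refine (jensenD hp n).trans ?_
    rw [rpow_exp h1, rpow_exp hD, ← Real.exp_add]
    exact Real.exp_le_exp.2 (by linarith [h4.1])

theorem exp_transfer {p : ℕ → ℝ} (hp : Tendsto (fun n : ℕ => p n / Real.log n) atTop atTop) :
    Tendsto (fun n : ℕ => Real.log (WW (p n) n) / p n / Real.log n -
      Real.log (DD (p n) n) / p n / Real.log n) atTop (𝓝 0) := by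
  obtain ⟨C, hC0, hC⟩ := compare
  have h0 : Tendsto (fun n : ℕ => C / Real.log n + C * (p n / Real.log n)⁻¹) atTop (𝓝 0) := by
    have h1 : Tendsto (fun n : ℕ => C / Real.log n) atTop (𝓝 0) :=
      tendsto_const_nhds.div_atTop tendsto_log_nat
    have h2 := (hp.inv_tendsto_atTop).const_mul C
    have h3 := h1.add h2
    simpa using h3
  refine squeeze_zero_norm' ?_ h0
  filter_upwards [hp.eventually_gt_atTop 0, eventually_ge_atTop 2] with n h1 hn
  have hl : 0 < Real.log n := Real.log_pos (by exact_mod_cast (by omega : 1 < n))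
  have hp0 : 0 < p n := by
    have := mul_pos h1 hl
    rwa [div_mul_cancel₀ _ hl.ne'] at this
  have h2 := (hC n hn (p n) hp0).2.2
  rw [← sub_div, Real.norm_eq_abs, abs_div, abs_of_pos hl, div_le_iff₀ hl]
  refine h2.trans_eq ?_
  field_simp

theorem exp_iff_exp {p : ℕ → ℝ} (hp : Tendsto (fun n : ℕ => p n / Real.log n) atTop atTop) (τ : ℝ) :
    Tendsto (fun n : ℕ => Real.log (WW (p n) n) / p n / Real.log n) atTop (𝓝 τ) ↔
      Tendsto (fun n : ℕ => Real.log (DD (p n) n) / p n / Real.log n) atTop (𝓝 τ) := by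
  have h0 := exp_transfer hp
  constructor
  · intro h
    have h1 := h.sub h0
    rw [sub_zero] at h1
    exact h1.congr fun n => by ring
  · intro h
    have h1 := h.add h0
    rw [add_zero] at h1
    exact h1.congr fun n => by ring

end Pool.Agent.J4H67.HM
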